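import Pool.Agent.Q191.RR.Final

/-!
# MP_f96ee4_an, Q1: yes

There are positive parameters `α, δ, C` and positive initial values for which the solution of
`x_{n+1} = (α + x_n + δ x_{n-2}) / (x_n + C x_{n-1})` is bounded and converges neither to the
equilibrium nor to any periodic solution.  Here `x 0, x 1, x 2` are `x_{-2}, x_{-1}, x_0`.
-/

set_option autoImplicit false

open Filter Topology

namespace Pool.Agent.Results.MP_f96ee4_an.BoundedNonconvergent

/-- For every real `t ≥ 10 ^ 6` the parameters `α = 1`, `δ = 4 ^ (9 t / 10)`, `C = 4 ^ t` admit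
a positive bounded solution which converges to no real number and to no periodic sequence. -/
theorem result (t : ℝ) (ht : 1000000 ≤ t) :
    ∃ α δ C : ℝ, 0 < α ∧ 0 < δ ∧ 0 < C ∧ α = 1 ∧ δ = (4 : ℝ) ^ (9 * t / 10) ∧ C = (4 : ℝ) ^ t ∧
      ∃ x : ℕ → ℝ, (∀ n, 0 < x n) ∧
        (∀ n, x (n + 3) = (α + x (n + 2) + δ * x n) / (x (n + 2) + C * x (n + 1))) ∧
        (∃ M, ∀ n, x n ≤ M) ∧
        ¬ Tendsto x atTop
          (𝓝 ((1 + δ + Real.sqrt ((δ + 1) ^ 2 + 4 * α * (1 + C))) / (2 * (1 + C)))) ∧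
        ∀ p : ℕ → ℝ, (∃ k, 1 ≤ k ∧ ∀ n, p (n + k) = p n) →
          ¬ Tendsto (fun n => x n - p n) atTop (𝓝 0) := by
  obtain ⟨x, h1, h2, h3, h4, h5⟩ := Pool.Agent.Q191.RR.final (γ := 0) (D := 0) ht le_rfl le_rfl
    (by positivity) (by positivity)
  refine ⟨1, (4 : ℝ) ^ (9 * t / 10), (4 : ℝ) ^ t, one_pos, by positivity, by positivity, rfl, rfl,
    rfl, x, h1, fun n => ?_, h3, h4 _, h5⟩
  rw [h2 n]
  simp only [zero_mul, add_zero]

end Pool.Agent.Results.MP_f96ee4_an.BoundedNonconvergent
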